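import Mathlib
import Pool.Agent.K1H72.OP.Stm

set_option autoImplicit false

/-! Project OP, piece OP-12: lower bound for `D` away from `±1`. -/

namespace Pool.Agent.K1H16.OP

open K1H72.OP

theorem sin_lb {t y : ℝ} (h1 : 8 * t ≤ y) (h2 : y ≤ Real.pi - 8 * t) (ht : 0 < t) :
    16 * t / Real.pi ≤ Real.sin y := by
  have hπ := Real.pi_pos
  rcases le_total y (Real.pi / 2) with h | h
  · have h3 := Real.mul_le_sin (by linarith : 0 ≤ y) h
    have h4 : 2 / Real.pi * (8 * t) ≤ 2 / Real.pi * y := by gcongr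
    have h5 : 2 / Real.pi * (8 * t) = 16 * t / Real.pi := by ring
    linarith
  · have h3 := Real.mul_le_sin (x := Real.pi - y) (by linarith) (by linarith)
    rw [Real.sin_pi_sub] at h3
    have h4 : 2 / Real.pi * (8 * t) ≤ 2 / Real.pi * (Real.pi - y) := by
      gcongr; linarith
    have h5 : 2 / Real.pi * (8 * t) = 16 * t / Real.pi := by ring
    linarith

theorem t_DF (h : S_LP) : S_DF := by
  intro t θ ht ht1 h1 h2
  have hπ := Real.pi_pos
  obtain ⟨Q, hQ⟩ : ∃ Q : ℂ, Q = qq t θ ^ 2 := ⟨_, rfl⟩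
  have hQe : Q = (Real.exp (-(2 * t)) : ℂ) * Complex.exp (((2 * θ : ℝ) : ℂ) * Complex.I) := by
    rw [hQ, qq, tau, ← Complex.exp_nat_mul, Complex.ofReal_exp, ← Complex.exp_add]
    congr 1
    push_cast
    ring
  obtain ⟨ρ, hρ⟩ : ∃ ρ : ℝ, ρ = Real.exp (-(2 * t)) := ⟨_, rfl⟩
  rw [← hρ] at hQe
  have hρ0 : 0 < ρ := hρ ▸ Real.exp_pos _
  have hρ1 : ρ < 1 := by rw [hρ, Real.exp_lt_one_iff]; linarith
  have hQn : ‖Q‖ = ρ := by
    rw [hQe, norm_mul, Complex.norm_exp_ofReal_mul_I, mul_one, Complex.norm_real,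
      Real.norm_of_nonneg hρ0.le]
  have hQre : Q.re = ρ * Real.cos (2 * θ) := by
    rw [hQe, Complex.re_ofReal_mul, Complex.exp_ofReal_mul_I_re]
  obtain ⟨hs, hprod⟩ := h Q 1 (by rw [hQn]; exact hρ1) (by simp)
  have hD : D (qq t θ) = ∏' j : ℕ, (1 - 1 * Q ^ (j + 1)) := by
    rw [D]
    refine tprod_congr fun j => ?_
    rw [one_mul, hQ, pow_mul]
  obtain ⟨a, ha⟩ : ∃ a : ℕ → ℂ, a = fun m : ℕ => 1 ^ (m + 1) / ((m : ℂ) + 1) *
    (Q ^ (m + 1) / (1 - Q ^ (m + 1))) := ⟨_, rfl⟩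
  have hsa : Summable a := by rw [ha]; exact Summable.of_norm hs
  have hpr : D (qq t θ) = Complex.exp (-∑' m, a m) := by rw [hD, hprod, ha]
  rw [hpr, Complex.norm_exp, Complex.neg_re, Real.exp_le_exp, neg_le_neg_iff, Complex.re_tsum hsa]
  have hsr : Summable fun m => (a m).re := (Complex.hasSum_re hsa.hasSum).summable
  rw [hsr.tsum_eq_zero_add]
  -- first term
  have hnsq : ‖1 - Q‖ ^ 2 = 1 - 2 * Q.re + ρ ^ 2 := by
    rw [← hQn, ← Complex.normSq_eq_norm_sq, ← Complex.normSq_eq_norm_sq, Complex.normSq_apply,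
      Complex.normSq_apply]
    simp
    ring
  have hsin : 16 * t / Real.pi ≤ |Real.sin θ| := by
    have h3 := sin_lb h1 h2 ht
    rcases le_total 0 θ with h4 | h4
    · rw [abs_of_nonneg h4] at h3; exact h3.trans (le_abs_self _)
    · rw [abs_of_nonpos h4, Real.sin_neg] at h3; exact h3.trans (neg_le_abs _)
  have hsin2 : (16 * t / Real.pi) ^ 2 ≤ Real.sin θ ^ 2 := by
    rw [← sq_abs (Real.sin θ)]
    exact pow_le_pow_left₀ (by positivity) hsin 2
  have hsp : 0 < Real.sin θ ^ 2 := lt_of_lt_of_le (by positivity) hsin2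
  have hlow : 4 * ρ * Real.sin θ ^ 2 ≤ ‖1 - Q‖ ^ 2 := by
    rw [hnsq, hQre, Real.cos_two_mul, Real.sin_sq]
    nlinarith [sq_nonneg (1 - ρ)]
  have hpos : 0 < ‖1 - Q‖ ^ 2 := lt_of_lt_of_le (by positivity) hlow
  have h0 : (a 0).re ≤ 195 / 10000 / t := by
    have e1 : a 0 = Q / (1 - Q) := by rw [ha]; simp
    have e2 : (Q / (1 - Q)).re = (1 - ρ ^ 2) / (2 * ‖1 - Q‖ ^ 2) - 1 / 2 := by
      rw [Complex.div_re, Complex.normSq_eq_norm_sq]
      have e3 : Q.im * Q.im = ρ ^ 2 - Q.re * Q.re := by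
        rw [← hQn, ← Complex.normSq_eq_norm_sq, Complex.normSq_apply]; ring
      simp only [Complex.sub_re, Complex.one_re, Complex.sub_im, Complex.one_im]
      have e4 : Q.re * (1 - Q.re) / ‖1 - Q‖ ^ 2 + Q.im * (0 - Q.im) / ‖1 - Q‖ ^ 2 =
        (Q.re - ρ ^ 2) / ‖1 - Q‖ ^ 2 := by
        rw [← add_div]; congr 1; linarith
      have e5 : Q.re = (1 + ρ ^ 2 - ‖1 - Q‖ ^ 2) / 2 := by linarith
      rw [e4]
      generalize ‖1 - Q‖ ^ 2 = N at *
      rw [e5]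
      field_simp
      ring
    rw [e1, e2]
    have e6 : (1 - ρ ^ 2) / (2 * ‖1 - Q‖ ^ 2) ≤ (1 - ρ ^ 2) / (2 * (4 * ρ * Real.sin θ ^ 2)) := by
      apply div_le_div_of_nonneg_left (by nlinarith) (by positivity) (by linarith)
    have e7 : (1 - ρ ^ 2) ≤ ρ * (4041 / 1000 * t) := by
      have f1 : Real.exp (2 * t) ≤ 1 / (1 - 2 * t) := by
        have := Real.one_sub_le_exp_neg (2 * t)
        rw [Real.exp_neg] at this
        rw [one_div, le_inv_comm₀ (Real.exp_pos _) (by linarith)]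
        exact this
      have f2 : 1 / (1 - 2 * t) ≤ 1 + 2041 / 1000 * t := by
        rw [div_le_iff₀ (by linarith)]
        nlinarith
      have f3 : ρ * Real.exp (2 * t) = 1 := by rw [hρ, ← Real.exp_add]; simp
      have f4 : 1 - 2 * t ≤ ρ := by rw [hρ]; exact Real.one_sub_le_exp_neg _
      have f5 : 1 ≤ ρ * (1 + 2041 / 1000 * t) :=
        f3.symm.le.trans (mul_le_mul_of_nonneg_left (f1.trans f2) hρ0.le)
      nlinarith
    have e8 : (1 - ρ ^ 2) / (2 * (4 * ρ * Real.sin θ ^ 2)) ≤ 195 / 10000 / t := by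
      rw [div_le_div_iff₀ (by positivity) ht]
      have g1 : (16 * t) ^ 2 ≤ Real.sin θ ^ 2 * Real.pi ^ 2 := by
        rw [div_pow, div_le_iff₀ (by positivity)] at hsin2
        exact hsin2
      have g2 : Real.pi ^ 2 ≤ 98697 / 10000 := by
        have := Real.pi_lt_d6
        nlinarith
      have g3 : (16 * t) ^ 2 ≤ Real.sin θ ^ 2 * (98697 / 10000) :=
        g1.trans (mul_le_mul_of_nonneg_left g2 hsp.le)
      have g4 : (1 - ρ ^ 2) * t ≤ ρ * (4041 / 1000 * t) * t :=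
        mul_le_mul_of_nonneg_right e7 ht.le
      have g5 : ρ * ((16 * t) ^ 2) ≤ ρ * (Real.sin θ ^ 2 * (98697 / 10000)) :=
        mul_le_mul_of_nonneg_left g3 hρ0.le
      nlinarith
    linarith
  -- the other terms
  have htail : ∀ m : ℕ, (a (m + 1)).re ≤ 1 / (2 * t) * (1 / (((m + 1 + 1 : ℕ) : ℝ)) ^ 2) := by
    intro m
    refine (Complex.re_le_norm _).trans ?_
    have hM : (0 : ℝ) < ((m + 1 + 1 : ℕ) : ℝ) := by positivity
    obtain ⟨x, hx⟩ : ∃ x : ℝ, x = 2 * t * ((m + 1 + 1 : ℕ) : ℝ) := ⟨_, rfl⟩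
    have hx0 : 0 < x := by rw [hx]; positivity
    have hpw : ρ ^ (m + 1 + 1) = Real.exp (-x) := by
      rw [hρ, ← Real.exp_nat_mul, hx]; congr 1; ring
    have hex : Real.exp (-x) < 1 := by rw [Real.exp_lt_one_iff]; linarith
    have hden : 1 - Real.exp (-x) ≤ ‖1 - Q ^ (m + 1 + 1)‖ := by
      have := norm_sub_norm_le (1 : ℂ) (Q ^ (m + 1 + 1))
      rw [norm_one, norm_pow, hQn, hpw] at this
      exact this
    have e1 : ‖a (m + 1)‖ = 1 / ((m + 1 + 1 : ℕ) : ℝ) * (Real.exp (-x) / ‖1 - Q ^ (m + 1 + 1)‖) := by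
      rw [ha]
      simp only [one_pow, norm_mul, norm_div, norm_one, norm_pow, hQn]
      rw [hpw]
      congr 2
      have : (((m + 1 : ℕ) : ℂ) + 1) = ((m + 1 + 1 : ℕ) : ℂ) := by push_cast; ring
      rw [this, Complex.norm_natCast]
    rw [e1]
    have e2 : Real.exp (-x) / ‖1 - Q ^ (m + 1 + 1)‖ ≤ 1 / x := by
      rw [div_le_div_iff₀ (by linarith) hx0]
      have f1 : (1 + x) * Real.exp (-x) ≤ 1 := by
        have := Real.add_one_le_exp x
        calc (1 + x) * Real.exp (-x) ≤ Real.exp x * Real.exp (-x) :=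
              mul_le_mul_of_nonneg_right (by linarith) (Real.exp_nonneg _)
          _ = 1 := by rw [← Real.exp_add]; simp
      nlinarith
    calc 1 / ((m + 1 + 1 : ℕ) : ℝ) * (Real.exp (-x) / ‖1 - Q ^ (m + 1 + 1)‖)
        ≤ 1 / ((m + 1 + 1 : ℕ) : ℝ) * (1 / x) := mul_le_mul_of_nonneg_left e2 (by positivity)
      _ = 1 / (2 * t) * (1 / (((m + 1 + 1 : ℕ) : ℝ)) ^ 2) := by
          rw [hx]; field_simp
  have hz := hasSum_zeta_two
  have hz1 : HasSum (fun m : ℕ => 1 / (((m + 1 + 1 : ℕ) : ℝ)) ^ 2) (Real.pi ^ 2 / 6 - 1) := by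
    have := (hasSum_nat_add_iff' 2).2 hz
    simpa [Finset.sum_range_succ, add_assoc, one_add_one_eq_two] using this
  have hz2 : HasSum (fun m : ℕ => 1 / (2 * t) * (1 / (((m + 1 + 1 : ℕ) : ℝ)) ^ 2))
      (1 / (2 * t) * (Real.pi ^ 2 / 6 - 1)) := hz1.mul_left _
  have hle : ∑' m, (a (m + 1)).re ≤ 1 / (2 * t) * (Real.pi ^ 2 / 6 - 1) := by
    rw [← hz2.tsum_eq]
    exact ((summable_nat_add_iff 1).2 hsr).tsum_le_tsum htail hz2.summable
  have hfin : 1 / (2 * t) * (Real.pi ^ 2 / 6 - 1) ≤ 3225 / 10000 / t := by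
    have g2 : Real.pi ^ 2 ≤ 98697 / 10000 := by
      have := Real.pi_lt_d6
      nlinarith
    have g3 : 1 / (2 * t) * (Real.pi ^ 2 / 6 - 1) = (Real.pi ^ 2 / 6 - 1) / 2 / t := by
      field_simp
    rw [g3]
    exact div_le_div_of_nonneg_right (by linarith) ht.le
  have hlast : 195 / 10000 / t + 3225 / 10000 / t ≤ 345 / 1000 / t := by
    rw [← add_div]
    exact div_le_div_of_nonneg_right (by norm_num) ht.le
  linarith

end Pool.Agent.K1H16.OP
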